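import Pool.Agent.helper86.BK.Spec

set_option autoImplicit false

namespace Pool.Agent.BK

theorem AF_sub (x α : ℝ) (hx : 1 ≤ x) (h0 : 0 ≤ α) (h1 : α ≤ 1) :
    x ^ α ≤ (x - 1) ^ α + 1 := by
  obtain ⟨y, hy⟩ : ∃ y : NNReal, (y : ℝ) = x - 1 := ⟨⟨x - 1, by linarith⟩, rfl⟩
  have h := NNReal.rpow_add_le_add_rpow y 1 h0 h1
  have h2 := NNReal.coe_le_coe.2 h
  push_cast at h2
  rw [hy, Real.one_rpow] at h2
  rwa [sub_add_cancel] at h2

theorem AF (hFLD : FLD_stmt) : AF_stmt := by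
  intro c hA ε hε
  have hα0 : max (1 / 2 : ℝ) (1 / (1 + ε / 8)) < 1 := by
    refine max_lt (by norm_num) ?_
    rw [div_lt_one (by linarith)]
    linarith
  obtain ⟨α, hα, hα1, N₀, hN⟩ := hA (ε / 4) (by linarith) _ hα0
  have hαh : 1 / 2 < α := (le_max_left _ _).trans_lt hα
  have hαe : 1 / (1 + ε / 8) < α := (le_max_right _ _).trans_lt hα
  have hαpos : 0 < α := by linarith
  obtain ⟨β, hβ⟩ : ∃ β, β = 1 / α - 1 := ⟨_, rfl⟩
  have hβ0 : 0 < β := by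
    have : 1 < 1 / α := by rw [lt_div_iff₀ hαpos]; linarith
    linarith
  have hβe : β < ε / 8 := by
    have h1 : 1 / α < 1 + ε / 8 := by
      rw [div_lt_iff₀ hαpos]
      rw [div_lt_iff₀ (by linarith)] at hαe
      linarith
    linarith
  refine ⟨2 * β, by linarith, by linarith, ?_⟩
  have e1 : ∀ᶠ M : ℕ in Filter.atTop, 3 ≤ ((M / 2 : ℕ) : ℝ) ^ β :=
    ((tendsto_rpow_atTop hβ0).comp (tendsto_natCast_atTop_atTop.comp
      (Nat.tendsto_div_const_atTop (by norm_num : (2 : ℕ) ≠ 0)))).eventually_ge_atTop 3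
  have e2 : ∀ᶠ M : ℕ in Filter.atTop,
      (4 : ℝ) ^ (1 - c - ε / 4) ≤ (M : ℝ) ^ (3 * ε / 4) :=
    ((tendsto_rpow_atTop (by linarith)).comp tendsto_natCast_atTop_atTop).eventually_ge_atTop _
  obtain ⟨M₀, hM₀⟩ := Filter.eventually_atTop.1
    ((e1.and e2).and (Filter.eventually_ge_atTop (2 * N₀ + 4)))
  refine ⟨M₀, fun M hM B hB => ?_⟩
  obtain ⟨⟨h3, h4⟩, h5⟩ := hM₀ M hM
  obtain ⟨M', hM'⟩ : ∃ M', M' = M / 2 := ⟨_, rfl⟩
  rw [← hM'] at h3
  have hM'1 : 1 ≤ M' := by omega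
  have hM'N : N₀ ≤ M' := by omega
  have hM'M : 2 * M' ≤ M := by omega
  have hMM' : M ≤ 4 * M' := by omega
  have hMpos : (0 : ℝ) < M := by
    have : 0 < M := by omega
    exact_mod_cast this
  have hM1 : (1 : ℝ) ≤ M := by
    have : 1 ≤ M := by omega
    exact_mod_cast this
  have hM'pos : (1 : ℝ) ≤ M' := by exact_mod_cast hM'1
  obtain ⟨x, hx⟩ : ∃ x, x = (M' : ℝ) ^ (1 / α) := ⟨_, rfl⟩
  have hx1 : 1 ≤ x := by rw [hx]; exact Real.one_le_rpow hM'pos (by positivity)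
  have hxα : x ^ α = M' := by
    rw [hx, ← Real.rpow_mul (by linarith), one_div, inv_mul_cancel₀ hαpos.ne', Real.rpow_one]
  obtain ⟨N, hNdef⟩ : ∃ N, N = ⌊x⌋₊ := ⟨_, rfl⟩
  have hNx : (N : ℝ) ≤ x := by rw [hNdef]; exact Nat.floor_le (by linarith)
  have hNx' : x - 1 < N := by rw [hNdef]; exact Nat.sub_one_lt_floor x
  have hNα : (N : ℝ) ^ α ≤ M' := by
    rw [← hxα]
    exact Real.rpow_le_rpow (Nat.cast_nonneg _) hNx hαpos.le
  have hNα' : (M' : ℝ) - 1 < (N : ℝ) ^ α := by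
    have h6 := AF_sub x α hx1 hαpos.le hα1.le
    have h7 : (x - 1) ^ α < (N : ℝ) ^ α := Real.rpow_lt_rpow (by linarith) hNx' hαpos
    rw [hxα] at h6
    linarith
  have hN1 : 1 ≤ N := by
    rw [hNdef]
    exact Nat.one_le_floor_iff _ |>.2 hx1
  have hNM' : M' ≤ N := by
    have h6 : (N : ℝ) ^ α ≤ N := by
      conv_rhs => rw [← Real.rpow_one (N : ℝ)]
      exact Real.rpow_le_rpow_of_exponent_le (by exact_mod_cast hN1) hα1.le
    have h7 : (M' : ℝ) < N + 1 := by linarith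
    have h8 : M' < N + 1 := by exact_mod_cast h7
    omega
  have hq : ∀ q ∈ dyA α N, M' ≤ q ∧ q ≤ M := by
    intro q hq
    obtain ⟨h6, h7⟩ := hq
    constructor
    · have h8 : (M' : ℝ) < q + 1 := by linarith
      have h9 : M' < q + 1 := by exact_mod_cast h8
      omega
    · have h8 : (q : ℝ) < 2 * M' := by linarith
      have h9 : q < 2 * M' := by exact_mod_cast h8
      omega
  have hMδ : 1 ≤ (M : ℝ) ^ (2 * β) := Real.one_le_rpow hM1 (by linarith)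
  obtain ⟨a, ha⟩ := hFLD N (dyA α N) B hN1 (fun q h => le_trans hM'1 (hq q h).1) (by
    intro q h
    obtain ⟨h6, h7⟩ := hq q h
    obtain ⟨b, hb⟩ := hB q (le_trans hM'1 h6) h7
    refine ⟨⌈(M : ℝ) ^ (2 * β)⌉₊, b, ?_, fun k hk => hb k (Nat.lt_ceil.1 hk)⟩
    have h8 : (M : ℝ) ^ (2 * β) ≤ (⌈(M : ℝ) ^ (2 * β)⌉₊ : ℝ) := Nat.le_ceil _
    have h9 : (M' : ℝ) ≤ q := by exact_mod_cast h6
    have h10 : ((M' : ℝ) ^ β) ^ 2 ≤ (M : ℝ) ^ (2 * β) := by
      rw [← Real.rpow_natCast, ← Real.rpow_mul (by linarith)]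
      rw [show β * ((2 : ℕ) : ℝ) = 2 * β by push_cast; ring]
      refine Real.rpow_le_rpow (by linarith) ?_ (by linarith)
      have : M' ≤ M := by omega
      exact_mod_cast this
    have h11 : x = (M' : ℝ) * (M' : ℝ) ^ β := by
      rw [hx, hβ]
      conv_rhs => rw [← Real.rpow_one_add' (by linarith) (by
        have : 0 < 1 / α := by positivity
        linarith)]
      congr 1
      ring
    have h12 : 2 * (N : ℝ) + q ≤ (⌈(M : ℝ) ^ (2 * β)⌉₊ : ℝ) * q := by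
      have h13 : 2 * (M' : ℝ) ^ β + 1 ≤ (M : ℝ) ^ (2 * β) := by nlinarith
      have h14 : 2 * (N : ℝ) ≤ 2 * ((M' : ℝ) ^ β) * q := by
        have : (M' : ℝ) * (M' : ℝ) ^ β ≤ (q : ℝ) * (M' : ℝ) ^ β :=
          mul_le_mul_of_nonneg_right h9 (by positivity)
        nlinarith
      have h15 : (2 * (M' : ℝ) ^ β + 1) * q ≤ (⌈(M : ℝ) ^ (2 * β)⌉₊ : ℝ) * q :=
        mul_le_mul_of_nonneg_right (h13.trans h8) (Nat.cast_nonneg _)
      linarith
    exact_mod_cast h12)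
  have hcov := hN N (le_trans hM'N hNM') a
  have hBc : (N : ℝ) ^ (1 - c - ε / 4) ≤ B.card := hcov.trans (by exact_mod_cast ha)
  rcases le_or_gt 0 (1 - c - ε / 4) with he | he
  · refine le_trans ?_ hBc
    have h6 : (M : ℝ) / 4 ≤ N := by
      have h7 : (M : ℝ) ≤ 4 * M' := by exact_mod_cast hMM'
      have h8 : (M' : ℝ) ≤ N := by exact_mod_cast hNM'
      linarith
    have h7 : ((M : ℝ) / 4) ^ (1 - c - ε / 4) ≤ (N : ℝ) ^ (1 - c - ε / 4) :=
      Real.rpow_le_rpow (by positivity) h6 he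
    refine le_trans ?_ h7
    rw [Real.div_rpow hMpos.le (by norm_num), le_div_iff₀ (by positivity)]
    calc (M : ℝ) ^ (1 - c - ε) * 4 ^ (1 - c - ε / 4)
        ≤ (M : ℝ) ^ (1 - c - ε) * (M : ℝ) ^ (3 * ε / 4) :=
          mul_le_mul_of_nonneg_left h4 (by positivity)
      _ = (M : ℝ) ^ (1 - c - ε / 4) := by
          rw [← Real.rpow_add hMpos]
          congr 1
          ring
  · have h6 : (M : ℝ) ^ (1 - c - ε) ≤ 1 := Real.rpow_le_one_of_one_le_of_nonpos hM1 (by linarith)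
    obtain ⟨b, hb⟩ := hB 1 le_rfl (by omega)
    have h7 := hb 0 (by
      have : 0 < (M : ℝ) ^ (2 * β) := by positivity
      simpa using this)
    have h8 : 1 ≤ B.card := Finset.card_pos.2 ⟨_, h7⟩
    exact h6.trans (by exact_mod_cast h8)

end Pool.Agent.BK
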